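import Pool.Agent.Work.MP_c03b66_an.Stmts2
import Pool.Agent.Work.MP_c03b66_an.Bd.B03
import Pool.Agent.Work.MP_c03b66_an.Bd.B05
import Pool.Agent.Work.MP_c03b66_an.Bd.B02

/-! Assembly of the items. -/

namespace MP_c03b66_an

theorem all_P1 : S_P1 := item_P1 item_K1
theorem all_P2 : S_P2 := item_P2 item_K1 item_K2
theorem all_P3 : S_P3 := item_P3 item_K1 item_K3
theorem all_Q1 : S_Q1 := item_Q1 all_P3 item_G2
theorem all_Q2 : S_Q2 := item_Q2 all_P2 item_G2
theorem all_W1 : S_W1 :=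
  item_W1 item_C1 item_L1 item_L2 item_K4 item_G1 item_G2 all_Q1 all_Q2 item_Q3
theorem all_W2 : S_W2 := item_W2 item_C2 all_W1
theorem all_W3 : S_W3 := item_W3 item_K4
theorem all_R2 : S_R2 := item_R2 all_W3
theorem all_R3 : S_R3 := item_R3 item_R1 all_R2 all_W2
theorem all_B3b : S_B3b := item_B3b item_B1 item_B2
theorem all_B4 : S_B4 := item_B4 item_B1 item_B3a all_B3b
theorem all_B5 : S_B5 := item_B5 all_B4
theorem all_D2 : S_D2 := item_D2 all_B5
theorem all_D3 : S_D3 := item_D3 item_B3a all_B3b item_D1 all_D2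
theorem all_A2 : S_A2 := item_A2 item_A1
theorem all_A3 : S_A3 := item_A3 all_A2
theorem all_A4 : S_A4 := item_A4 all_A3
theorem all_A5b : S_A5b := item_A5b item_A5a
theorem all_T2 : S_T2 := item_T2 all_D3 all_R3 item_R4 item_E3 all_A4

end MP_c03b66_an
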