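import Pool.Agent.Work.MP_c03b66_an.Bd.B01

/-! Second batch of statements: the symbols act on an arbitrary set `I` of coordinates, the
remaining coordinates (except `i₀`) are frozen. -/

open MeasureTheory UnitAddTorus

namespace MP_c03b66_an

noncomputable section

/-- Tame sets of frequencies: there are a free coordinate `i₀`, a set `I` of coordinates (not
containing `i₀`) in which the frequencies in `A` are comparable to the terms `N j l` of sequences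
that at least double at each step (with one index `j` for all the coordinates `l ∈ I`), and the
remaining coordinates are constant on `A`. -/
def Tame2 {n : ℕ} (A : Set (Fin n → ℤ)) : Prop :=
  ∃ (i₀ : Fin n) (I : Finset (Fin n)) (b : ℕ) (N : ℕ → Fin n → ℕ) (κ : Fin n → ℤ),
    i₀ ∉ I ∧ (∀ l, 1 ≤ N 0 l) ∧ (∀ j l, 2 * N j l ≤ N (j + 1) l) ∧
    ∀ k ∈ A, (∃ j, ∀ l ∈ I, (N j l : ℤ) ≤ k l ∧ k l ≤ b * N j l) ∧
      ∀ l, l ≠ i₀ → l ∉ I → k l = κ l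

/-- The symbol `∑_{j<J} ∏_{l ∈ I} tri (N j l) (s l) (k l)`. -/
def symI {n : ℕ} (I : Finset (Fin n)) (s : Fin n → ℕ) (N : ℕ → Fin n → ℕ) (J : ℕ)
    (k : Fin n → ℤ) : ℝ :=
  ∑ j ∈ Finset.range J, ∏ l ∈ I, tri (N j l) (s l) (k l)

/-- the grid point with `I`-coordinates `y` and the other coordinates `t`. -/
def glueI {n q : ℕ} (I : Finset (Fin n)) (t : Fin n → ZMod q) (y : {l : Fin n // l ∈ I} → ZMod q) :
    Fin n → ZMod q := fun l => if h : l ∈ I then y ⟨l, h⟩ else t l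

/-- the projection on the frequencies with `k l = κ l` for `l ∈ P` contracts `L¹`. -/
def S_R4P : Prop := ∀ (n : ℕ) (P : Finset (Fin n)) (κ : Fin n → ℤ) (S : Finset (Fin n → ℤ))
  (c : (Fin n → ℤ) → ℂ),
  ∫ x, ‖tp S (fun k => (((if ∀ l ∈ P, k l = κ l then 1 else 0) : ℝ) : ℂ) * c k) x‖
    ∂haar n ≤ ∫ x, ‖tp S c x‖ ∂haar n

/-- the operator on the torus at grid points is the grid operator in the variables in `I`. -/
def S_R2I : Prop := ∀ (n : ℕ) (I : Finset (Fin n)) (q : ℕ) [NeZero q] (Q : ℕ) (s : Fin n → ℕ)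
  (N : ℕ → Fin n → ℕ) (J : ℕ), 2 * Q ≤ q → (∀ j < J, ∀ l, 1 ≤ N j l) →
  (∀ j < J, ∀ l, (s l + 1) * N j l ≤ Q) →
  ∀ (S : Finset (Fin n → ℤ)) (c : (Fin n → ℤ) → ℂ), (∀ k ∈ S, ∀ l, |k l| < Q) →
  ∀ (t : Fin n → ZMod q) (x : {l : Fin n // l ∈ I} → ZMod q),
  tp S (fun k => (symI I s N J k : ℂ) * c k) (gp (glueI I t x)) =
    cv (fun u : {l : Fin n // l ∈ I} → ZMod q => ∑ j ∈ Finset.range J,
      Mp (fun l : {l : Fin n // l ∈ I} => s l.1) (fun l => N j l.1) u)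
      (fun y => tp S c (gp (glueI I t y))) x

/-- the operator lemma on the torus. -/
def S_R3I : Prop := ∀ (n : ℕ) (I : Finset (Fin n)) (s : Fin n → ℕ), (∃ l ∈ I, 1 ≤ s l) →
  ∃ C : ℝ, 0 < C ∧ ∀ (N : ℕ → Fin n → ℕ), Adm N → ∀ (J : ℕ) (S : Finset (Fin n → ℤ))
    (c : (Fin n → ℤ) → ℂ),
    ∫ x, Real.sqrt ‖tp S (fun k => (symI I s N J k : ℂ) * c k) x‖ ∂haar n ≤
      C * Real.sqrt (∫ x, ‖tp S c x‖ ∂haar n)

/-- lower bound and support of the symbols, comparable frequencies. -/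
def S_E1I : Prop := ∀ (n : ℕ) (I : Finset (Fin n)) (b : ℕ) (N : ℕ → Fin n → ℕ), Adm N →
  ∀ J : ℕ,
  (∀ (s : Fin n → ℕ) (k : Fin n → ℤ), (∀ l ∈ I, 1 ≤ s l) → symI I s N J k ≠ 0 →
    ∀ l ∈ I, 0 < k l) ∧
  (∀ (s : Fin n → ℕ) (k : Fin n → ℤ), 0 ≤ symI I s N J k) ∧
  (∀ (k : Fin n → ℤ) (j : ℕ), j < J →
    (∀ l ∈ I, (N j l : ℤ) ≤ k l ∧ k l ≤ b * N j l) →
    ∃ s ∈ Fintype.piFinset fun _ : Fin n => Finset.Icc 1 (b + 1),
      (1 / 2 : ℝ) ^ n ≤ symI I s N J k)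

/-- dual estimate for a tame piece. -/
def S_E2I : Prop := ∀ (n : ℕ) (E A : Set (Fin n → ℤ)), (∀ k ∈ E, ∀ i, 0 ≤ k i) →
  IsLambda2 E → Tame2 A → ∃ C : ℝ, 0 < C ∧ ∀ (S : Finset (Fin n → ℤ)) (c : (Fin n → ℤ) → ℂ),
    (∀ k ∈ S, (∀ i, 0 ≤ k i) → k ∉ E → c k = 0) →
    ∀ S' ⊆ S, (∀ k ∈ S', k ∈ E ∧ k ∈ A) →
      ∑ k ∈ S', ‖c k‖ ^ 2 ≤ C * (∫ x, ‖tp S c x‖ ∂haar n) ^ 2

/-- Theorem 1: `Λ₂`-sets covered by finitely many tame sets. -/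
def S_T1I : Prop := ∀ (n : ℕ) (E : Set (Fin n → ℤ)), (∀ k ∈ E, ∀ i, 0 ≤ k i) →
  IsLambda2 E → ∀ (T : Type) [Fintype T] (A : T → Set (Fin n → ℤ)), (∀ s, Tame2 (A s)) →
  (∀ k ∈ E, ∃ s, k ∈ A s) → ∀ a : E → ℂ, Summable (fun k => ‖a k‖ ^ 2) →
  ∃ f : C(Tor n, ℂ), InPolydiscAlgebra f ∧ ∀ k : E, fc f k = a k

/-- frequencies with the following property are covered by finitely many tame sets: off one
coordinate `i₀`, all the coordinates larger than `R` are pairwise comparable. -/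
def S_E5I : Prop := ∀ (n : ℕ) (δ : ℝ) (R : ℕ), 0 < δ →
  ∃ (T : Type) (_ : Fintype T) (A : T → Set (Fin n → ℤ)), (∀ s, Tame2 (A s)) ∧
    ∀ k : Fin n → ℤ, (∀ i, 0 ≤ k i) →
      (∃ i₀, ∀ l m, l ≠ i₀ → m ≠ i₀ → (R : ℤ) < k l → (R : ℤ) < k m → δ * k m ≤ k l) →
      ∃ s, k ∈ A s

/-- Corollary of Theorem 1. -/
def S_T3 : Prop := ∀ (n : ℕ) (E : Set (Fin n → ℤ)), (∀ k ∈ E, ∀ i, 0 ≤ k i) →
  IsLambda2 E → ∀ (δ : ℝ) (R : ℕ), 0 < δ →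
  (∀ k ∈ E, ∃ i₀, ∀ l m, l ≠ i₀ → m ≠ i₀ → (R : ℤ) < k l → (R : ℤ) < k m → δ * k m ≤ k l) →
  ∀ a : E → ℂ, Summable (fun k => ‖a k‖ ^ 2) →
  ∃ f : C(Tor n, ℂ), InPolydiscAlgebra f ∧ ∀ k : E, fc f k = a k

end

end MP_c03b66_an
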