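import Pool.Agent.Work.MP_c03b66_an.All
import Pool.Agent.Work.MP_c03b66_an.Bd.B04

/-! Assembly of the second batch. -/

namespace MP_c03b66_an

theorem all_R2I : S_R2I := item_R2I all_W3
theorem all_R3I : S_R3I := item_R3I item_R1 all_R2I all_W2
theorem all_E2I : S_E2I := item_E2I all_D3 all_R3I item_R4P item_E1I
theorem all_T1I : S_T1I := item_T1I all_E2I all_A4 all_A5b
theorem all_T3 : S_T3 := item_T3 all_T1I item_E5I

end MP_c03b66_an
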