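import Mathlib

/-!
Definitions for `MP_c03b66_an` (Fourier coefficients of polydisc algebra functions on
`Λ₂`-sets): torus, normalised Haar measure, Fourier coefficients, trigonometric polynomials,
`Λ₂`-sets, the polydisc algebra.
-/

open MeasureTheory UnitAddTorus

namespace MP_c03b66_an

noncomputable section

/-- The torus `(ℝ/ℤ)^n`. -/
abbrev Tor (n : ℕ) : Type := UnitAddTorus (Fin n)

/-- Normalised Haar measure on the torus. -/
def haar (n : ℕ) : Measure (Tor n) :=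
  Measure.pi fun _ : Fin n => (AddCircle.haarAddCircle : Measure UnitAddCircle)

instance (n : ℕ) : IsProbabilityMeasure (haar n) := by unfold haar; infer_instance

/-- The `k`-th Fourier coefficient of `f`. (`mFourier k x = ∏ i, exp (2 π i k_i x_i)`.) -/
def fc {n : ℕ} (f : Tor n → ℂ) (k : Fin n → ℤ) : ℂ :=
  ∫ x, mFourier (-k) x * f x ∂haar n

/-- The trigonometric polynomial `∑_{k ∈ S} c k · e_k`. -/
def tp {n : ℕ} (S : Finset (Fin n → ℤ)) (c : (Fin n → ℤ) → ℂ) : C(Tor n, ℂ) :=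
  ∑ k ∈ S, c k • (mFourier k : C(Tor n, ℂ))

/-- `E` is a `Λ₂`-set with constant `C`: `‖p‖₂ ≤ C ‖p‖₁` for all trigonometric polynomials `p`
with spectrum in `E`. -/
def Lambda2With {n : ℕ} (C : ℝ) (E : Set (Fin n → ℤ)) : Prop :=
  ∀ (S : Finset (Fin n → ℤ)) (c : (Fin n → ℤ) → ℂ), (∀ k ∈ S, k ∈ E) →
    Real.sqrt (∫ x, ‖tp S c x‖ ^ 2 ∂haar n) ≤ C * ∫ x, ‖tp S c x‖ ∂haar n

/-- `E` is a `Λ₂`-set. -/
def IsLambda2 {n : ℕ} (E : Set (Fin n → ℤ)) : Prop := ∃ C : ℝ, Lambda2With C E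

/-- `f` belongs to the polydisc algebra `C_A(T^n)`: it is the boundary restriction of a function
that is continuous on the closed polydisc and holomorphic in the open polydisc. -/
def InPolydiscAlgebra {n : ℕ} (f : C(Tor n, ℂ)) : Prop :=
  ∃ F : (Fin n → ℂ) → ℂ,
    ContinuousOn F {z | ∀ i, ‖z i‖ ≤ 1} ∧
    DifferentiableOn ℂ F {z | ∀ i, ‖z i‖ < 1} ∧
    ∀ θ : Tor n, F (fun i => (AddCircle.toCircle (θ i) : ℂ)) = f θ

/-- Tame sets of frequencies: off one coordinate `i₀`, either the frequencies in `A` have all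
coordinates comparable to the terms `N j l` of sequences that at least double at each step
(with one index `j` for all the coordinates `l ≠ i₀`), or they are constant. -/
def Tame {n : ℕ} (A : Set (Fin n → ℤ)) : Prop :=
  ∃ i₀ : Fin n,
    (∃ (b : ℕ) (N : ℕ → Fin n → ℕ), (∀ l, 1 ≤ N 0 l) ∧ (∀ j l, 2 * N j l ≤ N (j + 1) l) ∧
      ∀ k ∈ A, ∃ j, ∀ l, l ≠ i₀ → (N j l : ℤ) ≤ k l ∧ k l ≤ b * N j l) ∨
    (∃ κ : Fin n → ℤ, ∀ k ∈ A, ∀ l, l ≠ i₀ → k l = κ l)

/-- The span of the characters `e_k`, `k ∈ A`. -/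
def H {n : ℕ} (A : Set (Fin n → ℤ)) : Submodule ℂ C(Tor n, ℂ) :=
  Submodule.span ℂ ((fun k => (mFourier k : C(Tor n, ℂ))) '' A)

/-- The triangular symbol `max(0, 1 - |k - sN|/N)`. -/
def tri (N s : ℕ) (k : ℤ) : ℝ := max 0 (1 - |(k : ℝ) - s * N| / N)

/-- The symbol `∑_{j<J} ∏_{l ≠ i₀} tri (N j l) (s l) (k l)`. -/
def sym {n : ℕ} (i₀ : Fin n) (s : Fin n → ℕ) (N : ℕ → Fin n → ℕ) (J : ℕ)
    (k : Fin n → ℤ) : ℝ :=
  ∑ j ∈ Finset.range J, ∏ l ∈ Finset.univ.erase i₀, tri (N j l) (s l) (k l)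

/-- `N` is admissible: `1 ≤ N 0 l`, `2 N j l ≤ N (j+1) l`. -/
def Adm {ι : Type} (N : ℕ → ι → ℕ) : Prop :=
  (∀ l, 1 ≤ N 0 l) ∧ ∀ j l, 2 * N j l ≤ N (j + 1) l

/-! ### grids -/

/-- circular norm on `ZMod q` -/
def gd {q : ℕ} (x : ZMod q) : ℕ := x.valMinAbs.natAbs

/-- `D_N(x) = ∑_{a<N} e(ax/q)` on `ZMod q`. -/
def Dk {q : ℕ} [NeZero q] (N : ℕ) (x : ZMod q) : ℂ :=
  ∑ a ∈ Finset.range N, ZMod.stdAddChar ((a : ZMod q) * x)

/-- the modulated Fejér kernel `e(sNx/q) |D_N(x)|²/N` on `ZMod q`. -/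
def Mk {q : ℕ} [NeZero q] (s N : ℕ) (x : ZMod q) : ℂ :=
  ZMod.stdAddChar (((s * N : ℕ) : ZMod q) * x) * ((‖Dk N x‖ ^ 2 / N : ℝ) : ℂ)

/-- product kernel on the grid `ι → ZMod q`. -/
def Mp {ι : Type} [Fintype ι] {q : ℕ} [NeZero q] (s N : ι → ℕ) (x : ι → ZMod q) : ℂ :=
  ∏ l, Mk (s l) (N l) (x l)

/-- convolution with normalised counting measure on a finite group. -/
def cv {X : Type} [Fintype X] [AddCommGroup X] (M g : X → ℂ) (x : X) : ℂ :=
  (1 / (Fintype.card X : ℂ)) * ∑ y, M (x - y) * g y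

/-- grid points of the torus. -/
def gp {n q : ℕ} [NeZero q] (a : Fin n → ZMod q) : Tor n := fun i => ZMod.toAddCircle (a i)

/-- the grid point with `i₀`-coordinate `t` and the other coordinates `y`. -/
def glue {n q : ℕ} (i₀ : Fin n) (t : ZMod q) (y : {l : Fin n // l ≠ i₀} → ZMod q) :
    Fin n → ZMod q := fun l => if h : l = i₀ then t else y ⟨l, h⟩

/-- dyadic cells in `ι → ZMod (2^K)`: `y ∈ cell K e x` iff for each `l`, `y l` and `x l` lie in
the same dyadic interval of length `2^(K - e l)`. -/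
def cell {ι : Type} [Fintype ι] (K : ℕ) (e : ι → ℕ) (x : ι → ZMod (2 ^ K)) :
    Finset (ι → ZMod (2 ^ K)) := by
  classical
  exact Finset.univ.filter fun y => ∀ l, (y l).val / 2 ^ (K - e l) = (x l).val / 2 ^ (K - e l)

/-- the dilated cell: points within distance `< 2^(K - e l)` (circular, in each coordinate) of the
projections of the cell. -/
def dil {ι : Type} [Fintype ι] (K : ℕ) (e : ι → ℕ) (x : ι → ZMod (2 ^ K)) :
    Finset (ι → ZMod (2 ^ K)) := by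
  classical
  exact Finset.univ.filter fun u => ∀ l, ∃ v : ZMod (2 ^ K),
    v.val / 2 ^ (K - e l) = (x l).val / 2 ^ (K - e l) ∧ gd (u l - v) < 2 ^ (K - e l)

end

end MP_c03b66_an
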