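import Pool.Agent.Work.MP_c03b66_an.Bd.B01

/-!
`S_E2`: dual estimate for a tame piece (`MP_c03b66_an`).
-/

open MeasureTheory UnitAddTorus

namespace MP_c03b66_an

noncomputable section

lemma E2_jensen {n : ℕ} (f : C(Tor n, ℂ)) :
    ∫ x, Real.sqrt ‖f x‖ ∂haar n ≤ Real.sqrt (∫ x, ‖f x‖ ∂haar n) := by
  have h := ConcaveOn.le_map_integral (μ := haar n) (g := fun x : ℝ => Real.sqrt x)
    (f := fun x : Tor n => ‖f x‖) Real.strictConcaveOn_sqrt.concaveOn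
    Real.continuous_sqrt.continuousOn isClosed_Ici
    (Filter.Eventually.of_forall fun x => norm_nonneg _)
    (cont_int (by fun_prop)) (cont_int (by
      show Continuous fun x => Real.sqrt ‖f x‖
      fun_prop))
  exact h

/-- the case of a line of frequencies -/
lemma E2_line (hD : S_D3) (hR4 : S_R4) {n : ℕ} {E A : Set (Fin n → ℤ)}
    (hE0 : ∀ k ∈ E, ∀ i, 0 ≤ k i) (hΛ : IsLambda2 E) (i₀ : Fin n) (κ : Fin n → ℤ)
    (hκ : ∀ k ∈ A, ∀ l, l ≠ i₀ → k l = κ l) :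
    ∃ C : ℝ, 0 < C ∧ ∀ (S : Finset (Fin n → ℤ)) (c : (Fin n → ℤ) → ℂ),
    (∀ k ∈ S, (∀ i, 0 ≤ k i) → k ∉ E → c k = 0) →
    ∀ S' ⊆ S, (∀ k ∈ S', k ∈ E ∧ k ∈ A) →
      ∑ k ∈ S', ‖c k‖ ^ 2 ≤ C * (∫ x, ‖tp S c x‖ ∂haar n) ^ 2 := by
  obtain ⟨C, hC, h⟩ := hD n i₀ E hΛ 1
  refine ⟨C, hC, fun S c hc S' hS' hk => ?_⟩
  by_cases hneg : ∃ l, l ≠ i₀ ∧ κ l < 0
  · obtain ⟨l, hl, hl2⟩ := hneg
    have hemp : S' = ∅ := by
      rw [Finset.eq_empty_iff_forall_notMem]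
      intro k hkS
      obtain ⟨h1, h2⟩ := hk k hkS
      have h3 := hE0 k h1 l
      rw [hκ k h2 l hl] at h3
      omega
    rw [hemp, Finset.sum_empty]
    positivity
  · push Not at hneg
    have h1 := h (fun k => if ∀ l, l ≠ i₀ → k l = κ l then 1 else 0) (fun S c => by
      rw [one_mul]
      exact (E2_jensen _).trans (Real.sqrt_le_sqrt (hR4 n i₀ κ S c))) S c (by
      intro k hkS hk0 hkE
      by_cases hkκ : ∀ l, l ≠ i₀ → k l = κ l
      · have h2 : c k = 0 := by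
          refine hc k hkS (fun i => ?_) hkE
          by_cases hi : i = i₀
          · rw [hi]
            exact hk0
          · rw [hkκ i hi]
            exact hneg i hi
        rw [h2, mul_zero]
      · rw [if_neg hkκ]
        simp)
    refine le_trans ?_ h1
    have h2 : ∀ k ∈ S', ‖c k‖ ^ 2 =
        ‖(((if ∀ l, l ≠ i₀ → k l = κ l then 1 else 0 : ℝ)) : ℂ) * c k‖ ^ 2 := by
      intro k hkS
      rw [if_pos (hκ k (hk k hkS).2)]
      simp
    rw [Finset.sum_congr rfl h2]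
    refine Finset.sum_le_sum_of_subset_of_nonneg (fun k hkS => ?_) (fun _ _ _ => by positivity)
    rw [Finset.mem_filter]
    exact ⟨hS' hkS, hE0 k (hk k hkS).1 i₀⟩

theorem item_E2 (hD : S_D3) (hR : S_R3) (hR4 : S_R4) (hE : S_E1) : S_E2 := by
  intro n E A hE0 hΛ hA
  obtain ⟨i₀, ⟨b, N, hN1, hN2, hN3⟩ | ⟨κ, hκ⟩⟩ := hA
  · by_cases hex : ∃ l : Fin n, l ≠ i₀
    · obtain ⟨l₁, hl₁⟩ := hex
      have hAdm : Adm N := ⟨hN1, hN2⟩
      have h1 : ∀ s ∈ Fintype.piFinset (fun _ : Fin n => Finset.Icc 1 (b + 1)), ∃ C : ℝ, 0 < C ∧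
          ∀ (J : ℕ) (S : Finset (Fin n → ℤ)) (c : (Fin n → ℤ) → ℂ),
          (∀ k ∈ S, (∀ i, 0 ≤ k i) → k ∉ E → c k = 0) →
          ∑ k ∈ S with 0 ≤ k i₀, ‖(sym i₀ s N J k : ℂ) * c k‖ ^ 2 ≤
            C * (∫ x, ‖tp S c x‖ ∂haar n) ^ 2 := by
        intro s hs
        rw [Fintype.mem_piFinset] at hs
        have hs1 : ∀ l, 1 ≤ s l := fun l => (Finset.mem_Icc.1 (hs l)).1
        obtain ⟨CT, -, hCT⟩ := hR n i₀ s ⟨l₁, hl₁, hs1 l₁⟩
        obtain ⟨C, hC, h⟩ := hD n i₀ E hΛ CT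
        refine ⟨C, hC, fun J S c hc => h (sym i₀ s N J) (fun S c => hCT N hAdm J S c) S c ?_⟩
        intro k hkS hk0 hkE
        by_cases hsy : sym i₀ s N J k = 0
        · rw [hsy]
          simp
        · have h2 := (hE n i₀ b N hAdm J).1 s k (fun l _ => hs1 l) hsy
          have h3 : c k = 0 := by
            refine hc k hkS (fun i => ?_) hkE
            by_cases hi : i = i₀
            · rw [hi]
              exact hk0
            · exact (h2 i hi).le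
          rw [h3, mul_zero]
      choose! C hC h2 using h1
      have hCpos : 0 ≤ ∑ s ∈ Fintype.piFinset (fun _ : Fin n => Finset.Icc 1 (b + 1)), C s :=
        Finset.sum_nonneg fun s hs => (hC s hs).le
      refine ⟨4 ^ n * ∑ s ∈ Fintype.piFinset (fun _ : Fin n => Finset.Icc 1 (b + 1)), C s + 1,
        by positivity, fun S c hc S' hS' hk => ?_⟩
      choose! j hj using hN3
      have hJ : ∀ k ∈ S', j k < S'.sup j + 1 := fun k hkS =>
        Nat.lt_succ_of_le (Finset.le_sup (f := j) hkS)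
      have h3 : ∀ k ∈ S', ‖c k‖ ^ 2 ≤ 4 ^ n *
          ∑ s ∈ Fintype.piFinset (fun _ : Fin n => Finset.Icc 1 (b + 1)),
            ‖(sym i₀ s N (S'.sup j + 1) k : ℂ) * c k‖ ^ 2 := by
        intro k hkS
        obtain ⟨s, hs, hs2⟩ := (hE n i₀ b N hAdm (S'.sup j + 1)).2.2 k (j k) (hJ k hkS)
          (fun l hl => hj k (hk k hkS).2 l hl)
        have h4 : ‖(sym i₀ s N (S'.sup j + 1) k : ℂ) * c k‖ ^ 2 ≤
            ∑ s ∈ Fintype.piFinset (fun _ : Fin n => Finset.Icc 1 (b + 1)),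
            ‖(sym i₀ s N (S'.sup j + 1) k : ℂ) * c k‖ ^ 2 :=
          Finset.single_le_sum (f := fun s => ‖(sym i₀ s N (S'.sup j + 1) k : ℂ) * c k‖ ^ 2)
            (fun _ _ => by positivity) hs
        refine le_trans ?_ (mul_le_mul_of_nonneg_left h4 (by positivity))
        have h5 : ‖(sym i₀ s N (S'.sup j + 1) k : ℂ) * c k‖ =
            sym i₀ s N (S'.sup j + 1) k * ‖c k‖ := by
          rw [norm_mul, Complex.norm_real, Real.norm_eq_abs, abs_of_nonneg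
            (le_trans (by positivity) hs2)]
        rw [h5]
        have h6 : (1 / 2 : ℝ) ^ n * ‖c k‖ ≤ sym i₀ s N (S'.sup j + 1) k * ‖c k‖ :=
          mul_le_mul_of_nonneg_right hs2 (norm_nonneg _)
        have h7 : ((1 / 2 : ℝ) ^ n * ‖c k‖) ^ 2 ≤ (sym i₀ s N (S'.sup j + 1) k * ‖c k‖) ^ 2 :=
          pow_le_pow_left₀ (by positivity) h6 2
        refine le_trans (le_of_eq ?_) (mul_le_mul_of_nonneg_left h7 (by positivity))
        have h8 : (4 : ℝ) ^ n * ((1 / 2) ^ n) ^ 2 = 1 := by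
          rw [← pow_mul, mul_comm n 2, pow_mul, ← mul_pow]
          norm_num
        calc ‖c k‖ ^ 2 = 1 * ‖c k‖ ^ 2 := (one_mul _).symm
          _ = 4 ^ n * ((1 / 2) ^ n) ^ 2 * ‖c k‖ ^ 2 := by rw [h8]
          _ = 4 ^ n * ((1 / 2) ^ n * ‖c k‖) ^ 2 := by ring
      have h4 : ∀ s ∈ Fintype.piFinset (fun _ : Fin n => Finset.Icc 1 (b + 1)),
          ∑ k ∈ S', ‖(sym i₀ s N (S'.sup j + 1) k : ℂ) * c k‖ ^ 2 ≤
            C s * (∫ x, ‖tp S c x‖ ∂haar n) ^ 2 := by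
        intro s hs
        refine le_trans ?_ (h2 s hs (S'.sup j + 1) S c hc)
        refine Finset.sum_le_sum_of_subset_of_nonneg (fun k hkS => ?_)
          (fun _ _ _ => by positivity)
        rw [Finset.mem_filter]
        exact ⟨hS' hkS, hE0 k (hk k hkS).1 i₀⟩
      calc ∑ k ∈ S', ‖c k‖ ^ 2
          ≤ ∑ k ∈ S', 4 ^ n * ∑ s ∈ Fintype.piFinset (fun _ : Fin n => Finset.Icc 1 (b + 1)),
            ‖(sym i₀ s N (S'.sup j + 1) k : ℂ) * c k‖ ^ 2 := Finset.sum_le_sum h3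
        _ = 4 ^ n * ∑ s ∈ Fintype.piFinset (fun _ : Fin n => Finset.Icc 1 (b + 1)),
            ∑ k ∈ S', ‖(sym i₀ s N (S'.sup j + 1) k : ℂ) * c k‖ ^ 2 := by
          rw [← Finset.mul_sum, Finset.sum_comm]
        _ ≤ 4 ^ n * ∑ s ∈ Fintype.piFinset (fun _ : Fin n => Finset.Icc 1 (b + 1)),
            C s * (∫ x, ‖tp S c x‖ ∂haar n) ^ 2 :=
          mul_le_mul_of_nonneg_left (Finset.sum_le_sum h4) (by positivity)
        _ = (4 ^ n * ∑ s ∈ Fintype.piFinset (fun _ : Fin n => Finset.Icc 1 (b + 1)), C s) *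
            (∫ x, ‖tp S c x‖ ∂haar n) ^ 2 := by
          rw [← Finset.sum_mul, mul_assoc]
        _ ≤ _ := mul_le_mul_of_nonneg_right (by linarith) (by positivity)
    · push Not at hex
      exact E2_line hD hR4 hE0 hΛ i₀ 0 (fun k _ l hl => absurd (hex l) hl)
  · exact E2_line hD hR4 hE0 hΛ i₀ κ hκ

end

end MP_c03b66_an
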