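import Pool.Agent.Work.MP_c03b66_an.Bd.B01

namespace MP_c03b66_an

theorem item_E5 : S_E5 := by
  intro n i₀ δ hδ
  obtain ⟨b, hb⟩ := exists_nat_ge (2 / δ)
  have hb' : (2 : ℝ) ≤ b * δ := by
    rwa [div_le_iff₀ hδ] at hb
  refine ⟨fun s => if s = 0 then
      {k | ∃ j : ℕ, ∀ l, l ≠ i₀ → ((2 : ℤ) ^ j ≤ k l ∧ k l ≤ b * 2 ^ j)}
    else {k | ∀ l, l ≠ i₀ → k l = 0}, ?_, ?_⟩
  · intro s
    by_cases hs : s = 0
    · simp only [hs, if_true]
      refine ⟨i₀, Or.inl ⟨b, fun j _ => 2 ^ j, fun _ => by simp, fun j _ => ?_, ?_⟩⟩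
      · show 2 * 2 ^ j ≤ 2 ^ (j + 1)
        rw [pow_succ]
        omega
      · rintro k ⟨j, hj⟩
        refine ⟨j, fun l hl => ?_⟩
        have h := hj l hl
        push_cast
        exact h
    · simp only [hs, if_false]
      exact ⟨i₀, Or.inr ⟨fun _ => 0, fun k hk l hl => hk l hl⟩⟩
  · intro k hk h
    by_cases hz : ∃ l, l ≠ i₀ ∧ k l = 0
    · obtain ⟨l, hl, hl0⟩ := hz
      refine ⟨1, ?_⟩
      simp only [one_ne_zero, if_false]
      intro m hm
      have h1 := h l m hl hm
      rw [hl0] at h1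
      have h2 : (0 : ℝ) ≤ k m := by exact_mod_cast hk m
      have h3 : (k m : ℝ) = 0 := by
        push_cast at h1
        nlinarith
      exact_mod_cast h3
    · push Not at hz
      by_cases hne : ∃ l, l ≠ i₀
      · classical
        obtain ⟨l0, hl0⟩ := hne
        have hfin : (Finset.univ.filter (fun l : Fin n => l ≠ i₀)).Nonempty :=
          ⟨l0, by simp [hl0]⟩
        obtain ⟨m, hm, hmin⟩ := Finset.exists_min_image _ k hfin
        have hm' : m ≠ i₀ := (Finset.mem_filter.1 hm).2
        have hmin' : ∀ l, l ≠ i₀ → k m ≤ k l := fun l hl =>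
          hmin l (Finset.mem_filter.2 ⟨Finset.mem_univ _, hl⟩)
        have hpos : 1 ≤ k m := by
          have h1 := hk m
          have h2 := hz m hm'
          omega
        obtain ⟨μ, hμ⟩ : ∃ μ : ℕ, (μ : ℤ) = k m := ⟨(k m).toNat, Int.toNat_of_nonneg (hk m)⟩
        have hμ1 : μ ≠ 0 := by
          intro h0
          rw [h0] at hμ
          push_cast at hμ
          omega
        have h1 : 2 ^ Nat.log 2 μ ≤ μ := Nat.pow_log_le_self 2 hμ1
        have h2 : μ < 2 ^ (Nat.log 2 μ + 1) := Nat.lt_pow_succ_log_self (by norm_num) μ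
        refine ⟨0, ?_⟩
        simp only [if_true]
        refine ⟨Nat.log 2 μ, fun l hl => ⟨?_, ?_⟩⟩
        · have h3 : ((2 : ℤ) ^ Nat.log 2 μ) ≤ (μ : ℤ) := by exact_mod_cast h1
          have h4 := hmin' l hl
          omega
        · have h3 := h m l hm' hl
          have h4 : ((k m : ℤ) : ℝ) ≤ 2 * 2 ^ Nat.log 2 μ := by
            have h5 : (μ : ℝ) < 2 ^ (Nat.log 2 μ + 1) := by exact_mod_cast h2
            rw [← hμ]
            push_cast
            rw [pow_succ] at h5
            linarith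
          have h6 : ((k l : ℤ) : ℝ) ≤ b * 2 ^ Nat.log 2 μ := by
            have h7 : δ * (k l : ℝ) ≤ δ * (b * 2 ^ Nat.log 2 μ) := by
              have h8 : (0 : ℝ) < 2 ^ Nat.log 2 μ := by positivity
              nlinarith
            exact le_of_mul_le_mul_left h7 hδ
          exact_mod_cast h6
      · push Not at hne
        refine ⟨1, ?_⟩
        simp only [one_ne_zero, if_false]
        intro m hm
        exact absurd (hne m) hm

end MP_c03b66_an
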