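import Pool.Agent.Work.MP_c03b66_an.Bd.B01

open MeasureTheory UnitAddTorus

namespace MP_c03b66_an

noncomputable section

theorem T1_DE (hE : S_E2) (n : ℕ) (E : Set (Fin n → ℤ)) (hEp : ∀ k ∈ E, ∀ i, 0 ≤ k i)
    (hL : IsLambda2 E) (t : ℕ) (A : Fin t → Set (Fin n → ℤ)) (hA : ∀ s, Tame (A s))
    (hcov : ∀ k ∈ E, ∃ s, k ∈ A s) :
    ∃ C : ℝ, 0 ≤ C ∧ DE {k : Fin n → ℤ | ∀ i, 0 ≤ k i} E C := by
  classical
  choose C hC0 hC using fun s => hE n E (A s) hEp hL (hA s)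
  refine ⟨∑ s, C s, Finset.sum_nonneg fun s _ => (hC0 s).le, ?_⟩
  intro S c hc S' hS' hS'E
  have h1 : ∀ s, ∑ k ∈ S' with k ∈ A s, ‖c k‖ ^ 2 ≤
      C s * (∫ x, ‖tp S c x‖ ∂haar n) ^ 2 := fun s =>
    hC s S c (fun k hk hk0 hkE => hc k hk hk0 hkE) (S'.filter fun k => k ∈ A s)
      ((Finset.filter_subset _ _).trans hS')
      (fun k hk => ⟨hS'E k (Finset.mem_filter.1 hk).1, (Finset.mem_filter.1 hk).2⟩)
  calc ∑ k ∈ S', ‖c k‖ ^ 2 ≤ ∑ k ∈ S', ∑ s, (if k ∈ A s then ‖c k‖ ^ 2 else 0) := by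
        refine Finset.sum_le_sum fun k hk => ?_
        obtain ⟨s, hs⟩ := hcov k (hS'E k hk)
        have h2 : ‖c k‖ ^ 2 = (if k ∈ A s then ‖c k‖ ^ 2 else 0) := by rw [if_pos hs]
        calc ‖c k‖ ^ 2 = (if k ∈ A s then ‖c k‖ ^ 2 else 0) := h2
          _ ≤ ∑ s, (if k ∈ A s then ‖c k‖ ^ 2 else 0) :=
              Finset.single_le_sum (f := fun s => (if k ∈ A s then ‖c k‖ ^ 2 else (0 : ℝ)))
                (fun s _ => by positivity) (Finset.mem_univ s)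
    _ = ∑ s, ∑ k ∈ S' with k ∈ A s, ‖c k‖ ^ 2 := by
        rw [Finset.sum_comm]
        refine Finset.sum_congr rfl fun s _ => ?_
        rw [Finset.sum_filter]
    _ ≤ ∑ s, C s * (∫ x, ‖tp S c x‖ ∂haar n) ^ 2 := Finset.sum_le_sum fun s _ => h1 s
    _ = (∑ s, C s) * (∫ x, ‖tp S c x‖ ∂haar n) ^ 2 := by rw [Finset.sum_mul]

theorem item_T1 (hE : S_E2) (hA : S_A4) (hB : S_A5b) : S_T1 := by
  intro n E hEp hL t A hT hcov a ha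
  obtain ⟨C, hC0, hC⟩ := T1_DE hE n E hEp hL t A hT hcov
  obtain ⟨f, hf, hfa⟩ := hA n {k : Fin n → ℤ | ∀ i, 0 ≤ k i} E C (fun k hk => hEp k hk) hC0 hC a ha
  exact ⟨f, hB n f hf, hfa⟩

end

end MP_c03b66_an
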